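import Pool.Agent.Q290.Cox.Final

/-!
# Concavity of the escape speed in the rates on Coxeter groups

For every Coxeter system `(W, S)` with finite nonempty `S` the escape speed of the continuous time
walk that jumps from `w` to `w * s` at rate `r s` is a concave function of the rates.

The proof shows `σ(r) = inf_v ∑ s, r s * ‖b s + π s v - v‖ ^ 2`, where `b` is the cocycle of the
walls in `ℓ²` with values `‖b w‖ ^ 2 = ℓ w`; this is an infimum of linear functions of `r`.
-/

set_option autoImplicit false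

namespace Pool.Agent.Results.MP_47d77c_pr.SpeedConcave

open MeasureTheory ProbabilityTheory Filter Topology Q290.Cox

universe u v

theorem result {B : Type u} {W : Type v} [Fintype B] [Nonempty B] [MeasurableSpace B]
    [MeasurableSingletonClass B] [Group W] {M : CoxeterMatrix B} (cs : CoxeterSystem M W) :
    ∃ σ : (B → ℝ) → ℝ,
      (∀ r : B → ℝ, (∀ i, 0 < r i) →
        (∀ (Ω : Type u) [MeasurableSpace Ω] (P : Measure Ω) [IsProbabilityMeasure P]
          (τ : ℕ → Ω → ℝ) (ξ : ℕ → Ω → B), IsWalk P r τ ξ →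
          Tendsto (fun t : ℝ => (∫ ω, (cs.length (position cs τ ξ t ω) : ℝ) ∂P) / t) atTop
            (𝓝 (σ r))) ∧
        (∃ (Ω : Type u) (_ : MeasurableSpace Ω) (P : Measure Ω) (τ : ℕ → Ω → ℝ) (ξ : ℕ → Ω → B),
          IsProbabilityMeasure P ∧ IsWalk P r τ ξ)) ∧
      ConcaveOn ℝ {r : B → ℝ | ∀ i, 0 < r i} σ := by
  refine ⟨sig cs, fun r hr => ⟨fun Ω _ P _ τ ξ h => tendsto_speed cs hr h, ?_⟩, concave_sig cs⟩
  obtain ⟨P, τ, ξ, hP, h⟩ := exists_walk r hr
  exact ⟨_, _, P, τ, ξ, hP, h⟩

end Pool.Agent.Results.MP_47d77c_pr.SpeedConcave
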